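import Pool.Agent.W662.SK.StmtsB

/-! # Project SK, part B14: nondegeneracy of the ideal -/

set_option autoImplicit false

open scoped InnerProductSpace ENNReal

namespace W440.SK

open Pool.Agent.W662.SK

noncomputable section

theorem single_eq {Γ K : Type} [Group Γ] [DecidableEq Γ] [NormedAddCommGroup K]
    [InnerProductSpace ℂ K] (k : Γ) (v : K) :
    Gop v v (1 : Γ) (lp.single 2 k ((((‖v‖ ^ 2)⁻¹ : ℝ) : ℂ) • v)) = lp.single 2 k v := by
  refine l2_ext fun h => ?_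
  rw [Gop_apply, inv_one, one_mul]
  by_cases hk : h = k
  · subst hk
    rw [lp.single_apply_self, lp.single_apply_self, inner_smul_right, inner_self_eq_norm_sq_to_K]
    by_cases hv : v = 0
    · subst hv
      simp
    · have hn : ‖v‖ ≠ 0 := norm_ne_zero_iff.2 hv
      have h1 : (((‖v‖ ^ 2)⁻¹ : ℝ) : ℂ) * ((‖v‖ : ℂ)) ^ 2 = 1 := by
        push_cast
        have h2 : ((‖v‖ : ℝ) : ℂ) ≠ 0 := Complex.ofReal_ne_zero.2 hn
        field_simp
      have h3 : (((‖v‖ ^ 2)⁻¹ : ℝ) : ℂ) * ((RCLike.ofReal ‖v‖ : ℂ)) ^ 2 = 1 := h1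
      rw [h3, one_smul]
  · rw [lp.single_apply_ne _ _ _ hk, lp.single_apply_ne _ _ _ hk, inner_zero_right, zero_smul]

theorem b14 : S_B14 := by
  classical
  intro Γ K _ _ _ _ ζ δ hδ
  have h := hasSum_single' ζ
  obtain ⟨s, hs⟩ := ((Metric.tendsto_nhds.1 h) δ hδ).exists
  rw [dist_comm, dist_eq_norm] at hs
  refine ⟨s.card, fun r => ζ (s.equivFin.symm r : Γ), fun r => ζ (s.equivFin.symm r : Γ),
    fun _ => 1, fun r => lp.single 2 (s.equivFin.symm r : Γ)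
      ((((‖ζ (s.equivFin.symm r : Γ)‖ ^ 2)⁻¹ : ℝ) : ℂ) • ζ (s.equivFin.symm r : Γ)), ?_⟩
  refine lt_of_eq_of_lt ?_ hs
  congr 2
  simp only [single_eq]
  rw [Equiv.sum_comp s.equivFin.symm (fun x : s => (lp.single 2 (x : Γ) (ζ (x : Γ)) : L2 Γ K))]
  exact Finset.sum_coe_sort s (fun x : Γ => (lp.single 2 x (ζ x) : L2 Γ K))

end

end W440.SK
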